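import Pool.Agent.Y163.Defs

/-!
# Generalised Tate classes of bounded order, hard Lefschetz: definitions
-/

open CategoryTheory AlgebraicGeometry

universe u v

namespace Pool.Agent.K7.H8.Gap

open Pool.Agent.H914 Pool.Agent.H914.VarClass Pool.Agent.H914.VarClass.Obj
  Pool.Agent.H914.WeilCohomology Pool.Agent.W534

variable {k : Type u} [Field k] {𝒱 : VarClass k} {ops : CycleOps 𝒱}
  {W : WeilCohomology.{u, v} ops} {p : ℕ}

/-- The elements of `S` which are killed by `(f - μ) ^ r`. -/
def killed {K V : Type*} [Field K] [AddCommGroup V] [Module K V] (f : V →ₗ[K] V) (μ : K) (r : ℕ)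
    (S : Submodule K V) : Submodule K V :=
  LinearMap.ker ((f - μ • (1 : Module.End K V) : Module.End K V) ^ r) ⊓ S

/-- The classes of degree `2 j` on `X` which are killed by `(F - q ^ j) ^ r`, where `F` is the
Frobenius endomorphism over the field with `q = card Φ X s` elements. For `r = 1` these are the
Tate classes over this field. -/
noncomputable def tatePow (Φ : FrobSystem W p) (X : 𝒱.Obj) (s j r : ℕ) :
    Submodule W.K (W.H X) :=
  killed (W.map (iter (Φ.Fr X) s)).toLinearMap ((card Φ X s : W.K) ^ j) r (W.gr X (2 * j))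

/-- The eigenvalue `q ^ j` of the Frobenius endomorphism over the field with `q = card Φ X s`
elements on `H^(2 j)(X)` is semisimple. -/
def SemisimpleAt (Φ : FrobSystem W p) (X : 𝒱.Obj) (s j : ℕ) : Prop :=
  tatePow Φ X s j 2 = tatePow Φ X s j 1

/-- The class of the divisor `D` is multiplied by `q` by the Frobenius endomorphism over the field
with `q = card Φ X s` elements (for example, if `D` is defined over this field). -/
def FixedBy (Φ : FrobSystem W p) (X : 𝒱.Obj) (D : X.Cycles) (s : ℕ) : Prop :=
  W.map (iter (Φ.Fr X) s) (W.cl X D) = (card Φ X s : W.K) • W.cl X D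

/-- The hard Lefschetz theorem in the even degrees: for `2 j ≤ dim X` the multiplication with the
`(dim X - 2 j)`-th power of the class of `D` is injective on `H^(2 j)(X)`. -/
def HardLef (W : WeilCohomology.{u, v} ops) (X : 𝒱.Obj) (D : X.Cycles) : Prop :=
  ∀ j, 2 * j ≤ X.dim → ∀ c ∈ W.gr X (2 * j), W.cl X D ^ (X.dim - 2 * j) * c = 0 → c = 0

end Pool.Agent.K7.H8.Gap
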