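import Mathlib

/-!
# Unipotent isometries of symmetric forms
-/

set_option autoImplicit false

namespace Pool.Agent.K7.H8.Gap

open Module

variable {K V : Type*} [Field K] [AddCommGroup V] [Module K V] [FiniteDimensional K V]

/-- A nondegenerate skew-symmetric form lives on an even-dimensional space. -/
lemma even_of_nondeg [CharZero K] (ω : V →ₗ[K] V →ₗ[K] K) (hs : ∀ x y, ω x y = -ω y x)
    (hn : ∀ x, (∀ y, ω x y = 0) → x = 0) : Even (finrank K V) := by
  classical
  by_contra hodd
  rw [Nat.not_even_iff_odd] at hodd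
  let b := Module.finBasis K V
  let M : Matrix (Fin (finrank K V)) (Fin (finrank K V)) K := fun i j => ω (b i) (b j)
  have h1 : M.transpose = -M := by
    ext i j
    exact hs _ _
  have h2 : M.det = -M.det := by
    have := congrArg Matrix.det h1
    rw [Matrix.det_transpose, Matrix.det_neg, Fintype.card_fin, hodd.neg_one_pow] at this
    linear_combination this
  have h3 : M.det = 0 := by
    have : (2 : K) * M.det = 0 := by linear_combination h2
    simpa using this
  obtain ⟨v, hv, hv0⟩ := Matrix.exists_vecMul_eq_zero_iff.2 h3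
  refine hv ?_
  have h4 : (∑ i, v i • b i) = 0 := by
    refine hn _ fun y => ?_
    have h5 : ∀ j, ω (∑ i, v i • b i) (b j) = 0 := by
      intro j
      have := congrFun hv0 j
      simp only [Matrix.vecMul, dotProduct, M, Pi.zero_apply] at this
      rw [map_sum, LinearMap.sum_apply]
      simpa using this
    have h6 : ω (∑ i, v i • b i) = 0 := b.ext fun j => by simpa using h5 j
    rw [h6]
    rfl
  funext i
  have h7 := congrArg (fun z => b.repr z i) h4
  simpa [Finsupp.single_apply] using h7

/-- The rank of a skew-adjoint endomorphism is even. -/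
lemma even_rank_of_skew [CharZero K] (B : V →ₗ[K] V →ₗ[K] K) (hB : ∀ x y, B x y = B y x)
    (hn : ∀ x, (∀ y, B x y = 0) → x = 0) (S : End K V) (hS : ∀ x y, B (S x) y = -B x (S y)) :
    Even (finrank K (LinearMap.range S)) := by
  classical
  obtain ⟨U, hU⟩ := (LinearMap.ker S).exists_isCompl
  let ω : U →ₗ[K] U →ₗ[K] K := (B.comp S).domRestrict₁₂ U U
  have hω : ∀ x y : U, ω x y = B (S x) y := fun x y => rfl
  have h1 : Even (finrank K U) := by
    refine even_of_nondeg ω (fun x y => ?_) (fun x hx => ?_)
    · rw [hω, hω, hS, hB]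
    · have h2 : ∀ y, B (S x) y = 0 := by
        intro y
        have hy : y ∈ LinearMap.ker S ⊔ U := by rw [hU.sup_eq_top]; trivial
        obtain ⟨a, ha, c, hc, rfl⟩ := Submodule.mem_sup.1 hy
        rw [map_add, hS, LinearMap.mem_ker.1 ha, map_zero, neg_zero, zero_add]
        exact hx ⟨c, hc⟩
      have h3 : (x : V) ∈ LinearMap.ker S := LinearMap.mem_ker.2 (hn _ h2)
      have h4 : (x : V) ∈ LinearMap.ker S ⊓ U := ⟨h3, x.2⟩
      rw [hU.inf_eq_bot] at h4
      exact Subtype.ext ((Submodule.mem_bot K).1 h4)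
  have h5 := Submodule.finrank_add_eq_of_isCompl hU
  have h6 := LinearMap.finrank_range_add_finrank_ker S
  have h7 : finrank K (LinearMap.range S) = finrank K U := by omega
  rwa [h7]

section uni

variable [CharZero K] {B : V →ₗ[K] V →ₗ[K] K} {u : End K V}

/-- The ranks of the odd powers of `u - 1` are even. -/
theorem even_rank_pow (hB : ∀ x y, B x y = B y x) (hn : ∀ x, (∀ y, B x y = 0) → x = 0)
    (hu : ∀ x y, B (u x) (u y) = B x y) (hnil : IsNilpotent (u - 1)) {k : ℕ} (hk : Odd k) :
    Even (finrank K (LinearMap.range ((u - 1) ^ k))) := by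
  have h2 : IsUnit (algebraMap K (End K V) 2) :=
    (IsUnit.mk0 (2 : K) two_ne_zero).map (algebraMap K (End K V))
  have hunit : IsUnit (u + 1) := by
    have h3 : u + 1 = algebraMap K (End K V) 2 + (u - 1) := by
      rw [map_ofNat, ← one_add_one_eq_two]
      abel
    rw [h3]
    exact hnil.isUnit_add_left_of_commute h2 (Algebra.commutes _ _).symm
  obtain ⟨w, hw⟩ := hunit
  have hcomm : Commute (u - 1) (w : End K V) := by
    rw [hw]
    exact (((Commute.refl u).sub_left (Commute.one_left u)).add_right (Commute.one_right _))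
  have hci : Commute (u - 1) ((w⁻¹ : (End K V)ˣ) : End K V) := hcomm.units_inv_right
  let C : End K V := (u - 1) * ((w⁻¹ : (End K V)ˣ) : End K V)
  have hCw : ∀ a, C ((w : End K V) a) = (u - 1) a := by
    intro a
    show ((u - 1) * ((w⁻¹ : (End K V)ˣ) : End K V)) ((w : End K V) a) = _
    rw [← Module.End.mul_apply, mul_assoc, Units.inv_mul, mul_one]
  have hskew : ∀ x y, B (C x) y = -B x (C y) := by
    intro x y
    have hx : ∃ a, (w : End K V) a = x := ⟨((w⁻¹ : (End K V)ˣ) : End K V) x, by
      rw [← Module.End.mul_apply, Units.mul_inv, Module.End.one_apply]⟩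
    have hy : ∃ a, (w : End K V) a = y := ⟨((w⁻¹ : (End K V)ˣ) : End K V) y, by
      rw [← Module.End.mul_apply, Units.mul_inv, Module.End.one_apply]⟩
    obtain ⟨a, rfl⟩ := hx
    obtain ⟨b, rfl⟩ := hy
    rw [hCw, hCw, hw]
    simp only [LinearMap.sub_apply, LinearMap.add_apply, Module.End.one_apply, map_sub, map_add,
      LinearMap.sub_apply, LinearMap.add_apply, hu]
    ring
  have hpow : ∀ m : ℕ, ∀ x y, B ((C ^ m) x) y = (-1) ^ m * B x ((C ^ m) y) := by
    intro m
    induction m with
    | zero => intro x y; simp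
    | succ m ih =>
      intro x y
      have e1 : (C ^ (m + 1)) x = C ((C ^ m) x) := by
        rw [pow_succ', Module.End.mul_apply]
      have e2 : (C ^ (m + 1)) y = (C ^ m) (C y) := by
        rw [pow_succ, Module.End.mul_apply]
      rw [e1, e2, hskew, ih]
      ring
  have hCk : Even (finrank K (LinearMap.range (C ^ k))) := by
    refine even_rank_of_skew B hB hn _ fun x y => ?_
    rw [hpow, hk.neg_one_pow, neg_one_mul]
  have hrange : LinearMap.range (C ^ k) = LinearMap.range ((u - 1) ^ k) := by
    have h4 : C ^ k = (u - 1) ^ k * ((w⁻¹ : (End K V)ˣ) : End K V) ^ k := hci.mul_pow k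
    have h5 : (u - 1) ^ k = C ^ k * (w : End K V) ^ k := by
      have h6 : (w : End K V) ^ k = ((w ^ k : (End K V)ˣ) : End K V) := by push_cast; rfl
      have h7 : ((w⁻¹ : (End K V)ˣ) : End K V) ^ k = (((w ^ k)⁻¹ : (End K V)ˣ) : End K V) := by
        rw [← inv_pow]; push_cast; rfl
      rw [h4, mul_assoc, h6, h7, Units.inv_mul, mul_one]
    apply le_antisymm
    · rw [h4]
      exact LinearMap.range_comp_le_range _ _
    · conv_lhs => rw [h5]
      exact LinearMap.range_comp_le_range _ _
  rwa [hrange] at hCk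

/-- If the form has on the fixed space a rank `≥ dim V - 2`, then `u = 1`. -/
theorem eq_one_of_rank (hB : ∀ x y, B x y = B y x) (hn : ∀ x, (∀ y, B x y = 0) → x = 0)
    (hu : ∀ x y, B (u x) (u y) = B x y) (hnil : IsNilpotent (u - 1))
    (hr : finrank K V ≤ finrank K (LinearMap.range
      (B.domRestrict₁₂ (LinearMap.ker (u - 1)) (LinearMap.ker (u - 1)))) + 2) : u = 1 := by
  classical
  set T : End K V := u - 1 with hT
  have huT : ∀ x, u x = x + T x := by intro x; simp [hT]
  set K0 := LinearMap.ker T with hK0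
  set β := B.domRestrict₁₂ K0 K0 with hβ
  -- the radical of the form on the fixed space
  have hadj : ∀ x ∈ K0, ∀ y, B x (T y) = 0 := by
    intro x hx y
    have h1 := hu x y
    have h2 : u x = x := by rw [huT, LinearMap.mem_ker.1 hx, add_zero]
    rw [h2, huT, map_add] at h1
    linear_combination h1
  have hrk : finrank K (LinearMap.range T) + finrank K K0 = finrank K V :=
    LinearMap.finrank_range_add_finrank_ker T
  have hrβ := LinearMap.finrank_range_add_finrank_ker β
  have heven := even_rank_pow hB hn hu hnil odd_one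
  rw [pow_one, ← hT] at heven
  by_contra hne
  have hT0 : T ≠ 0 := fun h => hne (by rw [hT] at h; exact sub_eq_zero.1 h)
  -- the last nonzero power of `T`
  obtain ⟨m, hm0, hm1⟩ : ∃ m, T ^ m ≠ 0 ∧ T ^ (m + 1) = 0 := by
    have hex : ∃ m, T ^ m = 0 := hnil
    obtain ⟨m, hm⟩ : ∃ m, Nat.find hex = m + 1 := by
      refine Nat.exists_eq_succ_of_ne_zero fun h => ?_
      have h1 := Nat.find_spec hex
      rw [h, pow_zero] at h1
      exact hT0 (by rw [← one_mul T, h1, zero_mul])
    exact ⟨m, Nat.find_min hex (by omega), by rw [← hm]; exact Nat.find_spec hex⟩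
  have hmpos : 0 < m := by
    rcases Nat.eq_zero_or_pos m with h | h
    · exfalso
      rw [h, zero_add, pow_one] at hm1
      exact hT0 hm1
    · exact h
  have hkerβ : 1 ≤ finrank K (LinearMap.ker β) := by
    obtain ⟨v, hv⟩ : ∃ v, (T ^ m) v ≠ 0 := by
      by_contra h
      push Not at h
      exact hm0 (LinearMap.ext h)
    have hmem : (T ^ m) v ∈ K0 := by
      rw [hK0, LinearMap.mem_ker, ← Module.End.mul_apply, ← pow_succ', hm1, LinearMap.zero_apply]
    have hz : (⟨(T ^ m) v, hmem⟩ : K0) ∈ LinearMap.ker β := by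
      rw [LinearMap.mem_ker]
      ext y
      show B ((T ^ m) v) y = 0
      obtain ⟨m', rfl⟩ : ∃ m', m = m' + 1 := ⟨m - 1, by omega⟩
      rw [hB, pow_succ', Module.End.mul_apply]
      exact hadj _ y.2 _
    have hnt : Nontrivial (LinearMap.ker β) := by
      refine ⟨⟨⟨_, hz⟩, 0, fun h => hv ?_⟩⟩
      have h8 := congrArg (fun z : LinearMap.ker β => ((z : K0) : V)) h
      simpa using h8
    exact Module.finrank_pos
  have hrpos : 1 ≤ finrank K (LinearMap.range T) := by
    rw [Nat.one_le_iff_ne_zero]
    intro h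
    rw [Submodule.finrank_eq_zero, LinearMap.range_eq_bot] at h
    exact hT0 h
  obtain ⟨c, hc⟩ := heven
  omega

end uni

end Pool.Agent.K7.H8.Gap
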