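import Mathlib
import Pool.Agent.K7.H8.Gap.Defs
import Pool.Agent.K7.H8.Gap.Lin
import Pool.Agent.W534.PoleD
import Pool.Agent.Y163.TateB

/-!
# The form on the generalised Tate classes
-/

set_option autoImplicit false
set_option linter.unusedSectionVars false

open CategoryTheory AlgebraicGeometry

universe u v

namespace Pool.Agent.K7.H8.Gap

open Module
open Pool.Agent.H914 Pool.Agent.H914.VarClass Pool.Agent.H914.VarClass.Obj
  Pool.Agent.H914.WeilCohomology Pool.Agent.W534

variable {k : Type u} [Field k] {𝒱 : VarClass k} {ops : CycleOps 𝒱}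
  {W : WeilCohomology.{u, v} ops} {p : ℕ} (Φ : FrobSystem W p) {X : 𝒱.Obj}

/-- A locally nilpotent endomorphism of a finite-dimensional space is nilpotent. -/
lemma nilp_of_local {K V : Type*} [Field K] [AddCommGroup V] [Module K V] [FiniteDimensional K V]
    (T : End K V) (h : ∀ x, ∃ n, (T ^ n) x = 0) : IsNilpotent T := by
  classical
  let b := Module.finBasis K V
  choose n hn using fun i => h (b i)
  refine ⟨Finset.univ.sup n, b.ext fun i => ?_⟩
  obtain ⟨r, hr⟩ := Nat.exists_eq_add_of_le (Finset.le_sup (f := n) (Finset.mem_univ i))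
  rw [hr, add_comm, pow_add, End.mul_apply, hn, map_zero, LinearMap.zero_apply]

/-- The endomorphism `F - q ^ j` of the cohomology of `X`, where `F` is the Frobenius endomorphism
over the field with `q = card Φ X s` elements. -/
noncomputable def frobSub (X : 𝒱.Obj) (s j : ℕ) : Module.End W.K (W.H X) :=
  (W.map (W534.iter (Φ.Fr X) s)).toLinearMap - ((card Φ X s : W.K) ^ j) • 1

lemma frobSub_eq (s j : ℕ) : frobSub Φ X s j = frob Φ X s - ((card Φ X s : W.K) ^ j) • 1 := rfl

lemma frobSub_gr {s j i : ℕ} {x : W.H X} (hx : x ∈ W.gr X i) : frobSub Φ X s j x ∈ W.gr X i := by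
  rw [frobSub_eq, LinearMap.sub_apply, LinearMap.smul_apply, End.one_apply]
  exact Submodule.sub_mem _ (W.map_mem _ hx) (Submodule.smul_mem _ _ hx)

lemma mem_tatePow {s j r : ℕ} {x : W.H X} :
    x ∈ tatePow Φ X s j r ↔ (frobSub Φ X s j ^ r) x = 0 ∧ x ∈ W.gr X (2 * j) := Iff.rfl

lemma mem_gen {s j : ℕ} {x : W.H X} :
    x ∈ genTate Φ X s j ↔ ∃ r, x ∈ tatePow Φ X s j r := by
  rw [mem_genTate]
  constructor
  · rintro ⟨⟨r, hr⟩, hx⟩
    exact ⟨r, hr, hx⟩
  · rintro ⟨r, hr, hx⟩
    exact ⟨⟨r, hr⟩, hx⟩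

lemma tatePow_le {s j r : ℕ} : tatePow Φ X s j r ≤ genTate Φ X s j :=
  fun _ hx => (mem_gen Φ).2 ⟨r, hx⟩

lemma gen_stable {s j : ℕ} {x : W.H X} (hx : x ∈ genTate Φ X s j) :
    frobSub Φ X s j x ∈ genTate Φ X s j := by
  obtain ⟨r, hr, hx'⟩ := (mem_gen Φ).1 hx
  have hr' : (frobSub Φ X s j ^ r) x = 0 := hr
  refine (mem_gen Φ).2 ⟨r, (mem_tatePow Φ).2 ⟨?_, frobSub_gr Φ hx'⟩⟩
  rw [← End.mul_apply, ← pow_succ, pow_succ', End.mul_apply, hr', map_zero]

/-- `F - q ^ j` on the generalised Tate classes -/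
noncomputable def nilOp (s j : ℕ) : End W.K (genTate Φ X s j) :=
  (frobSub Φ X s j).restrict (p := genTate Φ X s j) (q := genTate Φ X s j)
    fun _ hx => gen_stable Φ hx

lemma nilOp_coe (s j : ℕ) (x : genTate Φ X s j) :
    ((nilOp Φ s j x : genTate Φ X s j) : W.H X) = frobSub Φ X s j x := rfl

lemma nilOp_pow (s j r : ℕ) (x : genTate Φ X s j) :
    (((nilOp Φ s j ^ r) x : genTate Φ X s j) : W.H X) = (frobSub Φ X s j ^ r) x := by
  induction r generalizing x with
  | zero => rfl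
  | succ r ih => rw [pow_succ, pow_succ, End.mul_apply, End.mul_apply, ih, nilOp_coe]

lemma nilOp_nil (s j : ℕ) : IsNilpotent (nilOp Φ (X := X) s j) := by
  refine nilp_of_local _ fun x => ?_
  obtain ⟨r, hr, -⟩ := (mem_gen Φ).1 x.2
  exact ⟨r, Subtype.ext (by rw [nilOp_pow]; exact hr)⟩

/-- the kernels of the powers -/
lemma finrank_ker_nilOp (s j r : ℕ) :
    finrank W.K (LinearMap.ker (nilOp Φ (X := X) s j ^ r)) = finrank W.K (tatePow Φ X s j r) := by
  refine LinearEquiv.finrank_eq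
    { toFun := fun x => ⟨((x : genTate Φ X s j) : W.H X), ?_, ?_⟩
      invFun := fun x => ⟨⟨x, tatePow_le Φ x.2⟩, ?_⟩
      left_inv := fun x => rfl
      right_inv := fun x => rfl
      map_add' := fun x y => rfl
      map_smul' := fun a x => rfl }
  · have h := x.2
    rw [LinearMap.mem_ker] at h
    have h2 : (frobSub Φ X s j ^ r) ((x : genTate Φ X s j) : W.H X) = 0 := by
      rw [← nilOp_pow, h]
      rfl
    exact h2
  · exact ((mem_gen Φ).1 x.1.2).choose_spec.2
  · rw [LinearMap.mem_ker]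
    apply Subtype.ext
    rw [nilOp_pow]
    exact x.2.1

section lef

variable {D : X.Cycles} (hD : X.IsCyc 1 D)

include hD in
lemma cl_comm (n : ℕ) (x : W.H X) : W.cl X D ^ n * x = x * W.cl X D ^ n :=
  W.even_comm (Pool.Agent.Y163.pow_mem_gr hD n) x

/-- The Lefschetz operator and the Frobenius endomorphism. -/
lemma frobSub_lef {s : ℕ} (hs : FixedBy Φ X D s) (e j : ℕ) (x : W.H X) :
    frobSub Φ X s (e + j) (W.cl X D ^ e * x) =
      ((card Φ X s : W.K) ^ e) • (W.cl X D ^ e * frobSub Φ X s j x) := by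
  have h1 : frob Φ X s (W.cl X D) = (card Φ X s : W.K) • W.cl X D := hs
  rw [frobSub_eq, frobSub_eq, LinearMap.sub_apply, LinearMap.sub_apply, LinearMap.smul_apply,
    LinearMap.smul_apply, End.one_apply, End.one_apply]
  rw [frob_apply, frob_apply] at *
  rw [map_mul, map_pow, h1, smul_pow, smul_mul_assoc, mul_sub, smul_sub, mul_smul_comm, smul_smul,
    pow_add]

lemma frobSub_pow_lef {s : ℕ} (hs : FixedBy Φ X D s) (e j r : ℕ) (x : W.H X) :
    (frobSub Φ X s (e + j) ^ r) (W.cl X D ^ e * x) =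
      (((card Φ X s : W.K) ^ e) ^ r) • (W.cl X D ^ e * (frobSub Φ X s j ^ r) x) := by
  induction r generalizing x with
  | zero => simp
  | succ r ih =>
    rw [pow_succ (frobSub Φ X s (e + j)), End.mul_apply, frobSub_lef Φ hs, map_smul, ih, smul_smul,
      pow_succ (frobSub Φ X s j), End.mul_apply, pow_succ ((card Φ X s : W.K) ^ e), mul_comm]

variable (hHL : HardLef W X D) {j e : ℕ} (hje : 2 * j + e = X.dim)

include hD hHL hje in
lemma lef_inj {c : W.H X} (hc : c ∈ W.gr X (2 * j)) (h : W.cl X D ^ e * c = 0) : c = 0 := by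
  refine hHL j (by omega) c hc ?_
  rwa [show X.dim - 2 * j = e by omega]

include hD in
lemma lef_gr {i : ℕ} {c : W.H X} (hc : c ∈ W.gr X (2 * i)) (e : ℕ) :
    W.cl X D ^ e * c ∈ W.gr X (2 * (e + i)) := by
  have := W.mul_mem (Pool.Agent.Y163.pow_mem_gr hD e) hc
  rwa [← mul_add] at this

include hD hHL hje in
/-- The Lefschetz operator is bijective on generalised Tate classes of bounded order. -/
lemma mem_tatePow_lef {s r : ℕ} (hs : FixedBy Φ X D s) {c : W.H X} (hc : c ∈ W.gr X (2 * j)) :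
    W.cl X D ^ e * c ∈ tatePow Φ X s (e + j) r ↔ c ∈ tatePow Φ X s j r := by
  have hq : ((card Φ X s : W.K) ^ e) ^ r ≠ 0 := pow_ne_zero _ (pow_ne_zero _ (card_ne Φ s))
  rw [mem_tatePow, mem_tatePow, frobSub_pow_lef Φ hs, smul_eq_zero_iff_right hq]
  constructor
  · rintro ⟨h1, -⟩
    refine ⟨lef_inj hD hHL hje ?_ h1, hc⟩
    have : ∀ r : ℕ, (frobSub Φ X s j ^ r) c ∈ W.gr X (2 * j) := by
      intro r
      induction r with
      | zero => exact hc
      | succ r ih => rw [pow_succ', End.mul_apply]; exact frobSub_gr Φ ih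
    exact this r
  · rintro ⟨h1, -⟩
    exact ⟨by rw [h1, mul_zero], lef_gr hD hc e⟩

/-- the Lefschetz operator on the generalised Tate classes -/
noncomputable def lefGen {s : ℕ} (hs : FixedBy Φ X D s) :
    genTate Φ X s j →ₗ[W.K] genTate Φ X s (e + j) :=
  ((LinearMap.mulLeft W.K (W.cl X D ^ e)).restrict (p := genTate Φ X s j)
    (q := genTate Φ X s (e + j)) fun x hx => by
      obtain ⟨r, hr⟩ := (mem_gen Φ).1 hx
      exact (mem_gen Φ).2 ⟨r, (mem_tatePow_lef Φ hD hHL hje hs hr.2).2 hr⟩)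

lemma lefGen_coe {s : ℕ} (hs : FixedBy Φ X D s) (x : genTate Φ X s j) :
    ((lefGen Φ hD hHL hje hs x : genTate Φ X s (e + j)) : W.H X) = W.cl X D ^ e * x := rfl

lemma lefGen_inj {s : ℕ} (hs : FixedBy Φ X D s) :
    Function.Injective (lefGen Φ hD hHL hje hs) := by
  rw [injective_iff_map_eq_zero]
  intro x hx
  apply Subtype.ext
  refine lef_inj hD hHL hje ((mem_gen Φ).1 x.2).choose_spec.2 ?_
  rw [← lefGen_coe Φ hD hHL hje hs, hx]
  rfl

lemma lefGen_surj {s : ℕ} (hs : FixedBy Φ X D s) :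
    Function.Surjective (lefGen Φ hD hHL hje hs) := by
  have h1 : finrank W.K (genTate Φ X s j) = finrank W.K (genTate Φ X s (e + j)) :=
    finrank_genTate_symm Φ (by omega)
  exact ((LinearMap.injective_iff_surjective_of_finrank_eq_finrank h1).1
    (lefGen_inj Φ hD hHL hje hs))

include hD hHL hje in
/-- the numbers of independent classes of bounded order agree in complementary degrees -/
lemma finrank_tatePow_lef {s : ℕ} (hs : FixedBy Φ X D s) (r : ℕ) :
    finrank W.K (tatePow Φ X s j r) = finrank W.K (tatePow Φ X s (e + j) r) := by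
  have h : ∀ x ∈ tatePow Φ X s j r,
      LinearMap.mulLeft W.K (W.cl X D ^ e) x ∈ tatePow Φ X s (e + j) r := fun x hx =>
    (mem_tatePow_lef Φ hD hHL hje hs hx.2).2 hx
  refine LinearEquiv.finrank_eq (LinearEquiv.ofBijective
    ((LinearMap.mulLeft W.K (W.cl X D ^ e)).restrict h) ⟨?_, ?_⟩)
  · rw [injective_iff_map_eq_zero]
    intro x hx
    apply Subtype.ext
    exact lef_inj hD hHL hje x.2.2 (congrArg Subtype.val hx)
  · rintro ⟨y, hy⟩
    obtain ⟨x, hx⟩ := lefGen_surj Φ hD hHL hje hs ⟨y, tatePow_le Φ hy⟩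
    have hx' : W.cl X D ^ e * (x : W.H X) = y := congrArg Subtype.val hx
    have hxg : (x : W.H X) ∈ W.gr X (2 * j) := ((mem_gen Φ).1 x.2).choose_spec.2
    refine ⟨⟨x, (mem_tatePow_lef Φ hD hHL hje hs hxg).1 (by rwa [hx'])⟩, Subtype.ext hx'⟩

/-- The form on the generalised Tate classes. -/
noncomputable def form (e : ℕ) (D : X.Cycles) (s j : ℕ) :
    genTate Φ X s j →ₗ[W.K] genTate Φ X s j →ₗ[W.K] W.K :=
  LinearMap.mk₂ W.K (fun x y => W.tr X ((x : W.H X) * (W.cl X D ^ e * (y : W.H X))))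
    (fun x y z => by simp [add_mul]) (fun a x y => by simp)
    (fun x y z => by simp [mul_add]) (fun a x y => by simp)

lemma form_apply (s : ℕ) (x y : genTate Φ X s j) :
    form Φ e D s j x y = W.tr X ((x : W.H X) * (W.cl X D ^ e * (y : W.H X))) := rfl

include hD in
lemma form_symm (s : ℕ) (x y : genTate Φ X s j) : form Φ e D s j x y = form Φ e D s j y x := by
  rw [form_apply, form_apply, W.even_comm ((mem_gen Φ).1 x.2).choose_spec.2, mul_assoc,
    cl_comm hD, mul_assoc, ← cl_comm hD]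

include hD hHL hje in
lemma form_nondeg {s : ℕ} (hs : FixedBy Φ X D s) (x : genTate Φ X s j)
    (h : ∀ y, form Φ e D s j x y = 0) : x = 0 := by
  apply Subtype.ext
  refine genTate_nondeg Φ (l := e + j) (by omega) x.2 fun y hy => ?_
  obtain ⟨z, hz⟩ := lefGen_surj Φ hD hHL hje hs ⟨y, hy⟩
  have hz' : W.cl X D ^ e * (z : W.H X) = y := congrArg Subtype.val hz
  rw [← hz']
  exact h z

/-- The unipotent part. -/
noncomputable def unip (s j : ℕ) : End W.K (genTate Φ X s j) :=
  1 + ((card Φ X s : W.K) ^ j)⁻¹ • nilOp Φ s j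

lemma unip_coe (s j : ℕ) (x : genTate Φ X s j) :
    ((unip Φ s j x : genTate Φ X s j) : W.H X) =
      ((card Φ X s : W.K) ^ j)⁻¹ • frob Φ X s (x : W.H X) := by
  have hq : ((card Φ X s : W.K) ^ j) ≠ 0 := pow_ne_zero _ (card_ne Φ s)
  rw [unip, LinearMap.add_apply, End.one_apply, LinearMap.smul_apply, Submodule.coe_add,
    Submodule.coe_smul, nilOp_coe, frobSub_eq, LinearMap.sub_apply, LinearMap.smul_apply,
    End.one_apply, smul_sub, smul_smul, inv_mul_cancel₀ hq, one_smul]
  abel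

include hje in
lemma unip_isom {s : ℕ} (hs : FixedBy Φ X D s) (x y : genTate Φ X s j) :
    form Φ e D s j (unip Φ s j x) (unip Φ s j y) = form Φ e D s j x y := by
  have hq : (card Φ X s : W.K) ≠ 0 := card_ne Φ s
  have h0 : frob Φ X s (W.cl X D) = (card Φ X s : W.K) • W.cl X D := hs
  have h1 := tr_iter Φ s ((x : W.H X) * (W.cl X D ^ e * (y : W.H X)))
  rw [map_mul (W.map (W534.iter (Φ.Fr X) s)), map_mul (W.map (W534.iter (Φ.Fr X) s)),
    map_pow (W.map (W534.iter (Φ.Fr X) s))] at h1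
  rw [frob_apply] at h0
  rw [h0, smul_pow, smul_mul_assoc, mul_smul_comm, map_smul, smul_eq_mul, ← card_pow] at h1
  rw [form_apply, form_apply, unip_coe, unip_coe, smul_mul_assoc, mul_smul_comm, mul_smul_comm,
    map_smul, map_smul, smul_eq_mul, smul_eq_mul, frob_apply, frob_apply]
  have h2 : (card Φ X s : W.K) ^ X.dim =
      (card Φ X s : W.K) ^ e * ((card Φ X s : W.K) ^ j * (card Φ X s : W.K) ^ j) := by
    rw [← pow_add, ← pow_add]
    congr 1
    omega
  have h3 : W.tr X (W.map (W534.iter (Φ.Fr X) s) (x : W.H X) *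
      (W.cl X D ^ e * W.map (W534.iter (Φ.Fr X) s) (y : W.H X))) =
      ((card Φ X s : W.K) ^ j * (card Φ X s : W.K) ^ j) *
        W.tr X ((x : W.H X) * (W.cl X D ^ e * (y : W.H X))) := by
    apply mul_left_cancel₀ (pow_ne_zero e hq)
    rw [h1, h2]
    ring
  rw [h3]
  have hq' : ((card Φ X s : W.K) ^ j) ≠ 0 := pow_ne_zero _ hq
  field_simp

lemma unip_sub (s j : ℕ) :
    unip Φ (X := X) s j - 1 = ((card Φ X s : W.K) ^ j)⁻¹ • nilOp Φ s j := by
  ext x
  simp [unip]

lemma unip_nil (s j : ℕ) : IsNilpotent (unip Φ (X := X) s j - 1) := by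
  rw [unip_sub]
  exact (nilOp_nil Φ s j).smul _

lemma range_unip (s j r : ℕ) :
    LinearMap.range ((unip Φ (X := X) s j - 1) ^ r) = LinearMap.range (nilOp Φ s j ^ r) := by
  rw [unip_sub, smul_pow]
  exact LinearMap.range_smul _ _ (pow_ne_zero _ (inv_ne_zero (pow_ne_zero _ (card_ne Φ s))))

lemma ker_unip (s j : ℕ) :
    LinearMap.ker (unip Φ (X := X) s j - 1) = LinearMap.ker (nilOp Φ s j) := by
  rw [unip_sub]
  exact LinearMap.ker_smul _ _ (inv_ne_zero (pow_ne_zero _ (card_ne Φ s)))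

include hD hHL hje in
/-- Parity in the codimensions `≤ dim X / 2`. -/
lemma parity_low {s : ℕ} (hs : FixedBy Φ X D s) {r : ℕ} (hr : Odd r) :
    Even (finrank W.K (genTate Φ X s j) - finrank W.K (tatePow Φ X s j r)) := by
  have h1 := even_rank_pow (B := form Φ e D s j) (u := unip Φ s j) (form_symm Φ hD s)
    (form_nondeg Φ hD hHL hje hs) (unip_isom Φ hje hs) (unip_nil Φ s j) hr
  rw [range_unip] at h1
  have h2 := LinearMap.finrank_range_add_finrank_ker (nilOp Φ (X := X) s j ^ r)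
  rw [finrank_ker_nilOp] at h2
  rwa [← h2, Nat.add_sub_cancel]

include hD hHL hje in
/-- Parity in the codimensions `≥ dim X / 2`. -/
lemma parity_high {s : ℕ} (hs : FixedBy Φ X D s) {r : ℕ} (hr : Odd r) :
    Even (finrank W.K (genTate Φ X s (e + j)) - finrank W.K (tatePow Φ X s (e + j) r)) := by
  rw [← finrank_tatePow_lef Φ hD hHL hje hs, ← finrank_genTate_symm Φ (Z := X) (s := s) (j := j) (l := e + j) (by omega)]
  exact parity_low Φ hD hHL hje hs hr

include hD hHL hje in
/-- If there are many algebraic classes, then `F = q ^ j` on the generalised Tate classes. -/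
lemma unip_eq_one {s : ℕ} (hs : FixedBy Φ X D s)
    (h1 : ∀ c ∈ spanCycles W X j, frob Φ X s c = ((card Φ X s : W.K) ^ j) • c)
    (h2 : ∀ c ∈ spanCycles W X (e + j), frob Φ X s c = ((card Φ X s : W.K) ^ (e + j)) • c)
    (hr : finrank W.K (genTate Φ X s j) ≤ kRank W X j (e + j) + 2) : unip Φ (X := X) s j = 1 := by
  classical
  refine eq_one_of_rank (B := form Φ e D s j) (form_symm Φ hD s)
    (form_nondeg Φ hD hHL hje hs) (unip_isom Φ hje hs) (unip_nil Φ s j) (le_trans hr ?_)
  refine Nat.add_le_add_right ?_ 2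
  set K0 := LinearMap.ker (unip Φ (X := X) s j - 1) with hK0
  set β := (form Φ e D s j).domRestrict₁₂ K0 K0 with hβ
  have hmemK : ∀ x : genTate Φ X s j, x ∈ K0 ↔ frobSub Φ X s j x = 0 := by
    intro x
    rw [hK0, ker_unip, LinearMap.mem_ker, ← nilOp_coe, ← Submodule.coe_eq_zero]
  have hz : ∀ {i : ℕ} {c : W.H X}, frob Φ X s c = ((card Φ X s : W.K) ^ i) • c →
      frobSub Φ X s i c = 0 := by
    intro i c h
    rw [frobSub_eq, LinearMap.sub_apply, h, LinearMap.smul_apply, End.one_apply, sub_self]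
  have hg : ∀ c ∈ spanCycles W X j, c ∈ genTate Φ X s j := fun c hc =>
    mem_genTate_of_eig Φ (Pool.Agent.H447.span_gr hc) (h1 c hc)
  have hg' : ∀ c ∈ spanCycles W X (e + j), c ∈ genTate Φ X s (e + j) := fun c hc =>
    mem_genTate_of_eig Φ (Pool.Agent.H447.span_gr hc) (h2 c hc)
  -- the inclusion of the classes of codimension `j`
  let ι : spanCycles W X j →ₗ[W.K] K0 :=
    { toFun := fun a => ⟨⟨a, hg a a.2⟩, (hmemK _).2 (hz (h1 a a.2))⟩
      map_add' := fun a b => rfl
      map_smul' := fun c a => rfl }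
  -- the classes of complementary codimension
  let Λ := LinearEquiv.ofBijective (lefGen Φ hD hHL hje hs)
    ⟨lefGen_inj Φ hD hHL hje hs, lefGen_surj Φ hD hHL hje hs⟩
  have hΛ : ∀ x : genTate Φ X s j, ((Λ x : genTate Φ X s (e + j)) : W.H X) =
      W.cl X D ^ e * (x : W.H X) := fun x => rfl
  have hΛs : ∀ b : spanCycles W X (e + j), W.cl X D ^ e *
      ((Λ.symm ⟨b, hg' b b.2⟩ : genTate Φ X s j) : W.H X) = b := by
    intro b
    rw [← hΛ, LinearEquiv.apply_symm_apply]
  have hker : ∀ b : spanCycles W X (e + j), Λ.symm ⟨b, hg' b b.2⟩ ∈ K0 := by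
    intro b
    rw [hmemK]
    have h3 := frobSub_lef Φ hs e j ((Λ.symm ⟨b, hg' b b.2⟩ : genTate Φ X s j) : W.H X)
    rw [hΛs, hz (h2 b b.2)] at h3
    have h4 := (smul_eq_zero_iff_right (pow_ne_zero e (card_ne Φ (Z := X) s))).1 h3.symm
    exact lef_inj hD hHL hje (frobSub_gr Φ ((mem_gen Φ).1 (Subtype.prop _)).choose_spec.2) h4
  let κ : spanCycles W X (e + j) →ₗ[W.K] K0 :=
    { toFun := fun b => ⟨Λ.symm ⟨b, hg' b b.2⟩, hker b⟩
      map_add' := fun a b => by
        apply Subtype.ext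
        exact map_add Λ.symm (⟨a, hg' a a.2⟩ : genTate Φ X s (e + j)) ⟨b, hg' b b.2⟩
      map_smul' := fun c a => by
        apply Subtype.ext
        exact map_smul Λ.symm c (⟨a, hg' a a.2⟩ : genTate Φ X s (e + j)) }
  have hpair : pair W X j (e + j) = κ.dualMap ∘ₗ β ∘ₗ ι := by
    ext a b
    rw [pair_apply]
    show _ = W.tr X ((a : W.H X) * (W.cl X D ^ e *
      ((Λ.symm ⟨b, hg' b b.2⟩ : genTate Φ X s j) : W.H X)))
    rw [hΛs]
  rw [kRank, hpair]
  calc finrank W.K (LinearMap.range (κ.dualMap ∘ₗ β ∘ₗ ι))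
      ≤ finrank W.K (LinearMap.range (β ∘ₗ ι)) := by
        rw [LinearMap.range_comp]
        exact Submodule.finrank_map_le _ _
    _ ≤ finrank W.K (LinearMap.range β) :=
        Submodule.finrank_mono (LinearMap.range_comp_le_range _ _)

lemma nilOp_eq_zero {s j : ℕ} (h : unip Φ (X := X) s j = 1) : nilOp Φ (X := X) s j = 0 := by
  have h1 := unip_sub Φ (X := X) s j
  have h2 : ((card Φ X s : W.K) ^ j)⁻¹ • nilOp Φ (X := X) s j = 0 := by
    rw [← h1, h]
    ext x
    simp
  exact (smul_eq_zero.1 h2).resolve_left (inv_ne_zero (pow_ne_zero _ (card_ne Φ s)))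

/-- `F = q ^ j` over a large field implies semisimplicity over all fields. -/
lemma semisimpleAt_of {s₀ j : ℕ} (h : ∀ x ∈ genTate Φ X s₀ j, frobSub Φ X s₀ j x = 0)
    (hst : ∀ s, 0 < s → genTate Φ X s j ≤ genTate Φ X s₀ j) (hs₀ : 0 < s₀) {s : ℕ} (hs : 0 < s) :
    SemisimpleAt Φ X s j := by
  -- the condition for `s * s₀`
  have hfix : ∀ x ∈ genTate Φ X s j, frob Φ X (s * s₀) x =
      ((card Φ X (s * s₀) : W.K) ^ j) • x := by
    intro x hx
    have h1 := h x (hst s hs hx)
    have h2 : frob Φ X s₀ x = ((card Φ X s₀ : W.K) ^ j) • x := by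
      rw [frobSub_eq, LinearMap.sub_apply, LinearMap.smul_apply, End.one_apply, sub_eq_zero] at h1
      exact h1
    rw [mul_comm s s₀, frob_mul_eq, card_mul_eq]
    have h3 : ∀ n : ℕ, (frob Φ X s₀ ^ n) x = (((card Φ X s₀ : W.K) ^ j) ^ n) • x := by
      intro n
      induction n with
      | zero => simp
      | succ n ih => rw [pow_succ, End.mul_apply, h2, map_smul, ih, smul_smul, ← pow_succ']
    rw [h3, ← pow_mul, mul_comm j s, pow_mul]
    push_cast
    rfl
  apply le_antisymm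
  · intro x hx
    obtain ⟨h1, h2⟩ := (mem_tatePow Φ).1 hx
    refine (mem_tatePow Φ).2 ⟨?_, h2⟩
    rw [pow_one]
    set μ : W.K := (card Φ X s : W.K) ^ j with hμ
    set v := frobSub Φ X s j x with hv
    have hv0 : frobSub Φ X s j v = 0 := by
      rw [hv, ← End.mul_apply, ← pow_two]
      exact h1
    have hFx : frob Φ X s x = μ • x + v := by
      rw [hv, frobSub_eq, LinearMap.sub_apply, LinearMap.smul_apply, End.one_apply]
      abel
    have hFv : frob Φ X s v = μ • v := by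
      rw [frobSub_eq, LinearMap.sub_apply, LinearMap.smul_apply, End.one_apply, sub_eq_zero] at hv0
      exact hv0
    have hpowv : ∀ n : ℕ, (frob Φ X s ^ n) v = (μ ^ n) • v := by
      intro n
      induction n with
      | zero => simp
      | succ n ih => rw [pow_succ, End.mul_apply, hFv, map_smul, ih, smul_smul, ← pow_succ']
    have hpow : ∀ n : ℕ, (frob Φ X s ^ (n + 1)) x = (μ ^ (n + 1)) • x +
        ((n + 1 : ℕ) * μ ^ n : W.K) • v := by
      intro n
      induction n with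
      | zero => simp [hFx]
      | succ n ih =>
        rw [pow_succ', End.mul_apply, ih, map_add, map_smul, map_smul, hFx, hFv, smul_add,
          smul_smul, smul_smul, add_assoc, ← add_smul, ← pow_succ]
        congr 2
        push_cast
        ring
    have h3 := hfix x (tatePow_le Φ hx)
    rw [frob_mul_eq, card_mul_eq] at h3
    obtain ⟨m, rfl⟩ : ∃ m, s₀ = m + 1 := ⟨s₀ - 1, by omega⟩
    rw [hpow] at h3
    have h4 : (((card Φ X s ^ (m + 1) : ℕ) : W.K) ^ j) = μ ^ (m + 1) := by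
      rw [hμ, ← pow_mul, mul_comm j, pow_mul]
      push_cast
      rfl
    rw [h4, add_eq_left] at h3
    refine (smul_eq_zero.1 h3).resolve_left ?_
    exact mul_ne_zero (Nat.cast_ne_zero.2 (by omega)) (pow_ne_zero _
      (pow_ne_zero _ (card_ne Φ s)))
  · intro x hx
    obtain ⟨h1, h2⟩ := (mem_tatePow Φ).1 hx
    refine (mem_tatePow Φ).2 ⟨?_, h2⟩
    rw [pow_one] at h1
    rw [pow_two, End.mul_apply, h1, map_zero]

end lef

end Pool.Agent.K7.H8.Gap
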