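import Mathlib
import Pool.Agent.K7.H8.Gap.Geo

/-!
# The parity of the defect of semisimplicity, and the gap theorem
-/

set_option autoImplicit false
set_option linter.unusedSectionVars false

open CategoryTheory AlgebraicGeometry

universe u v

namespace Pool.Agent.K7.H8.Gap

open Module
open Pool.Agent.H914 Pool.Agent.H914.VarClass Pool.Agent.H914.VarClass.Obj
  Pool.Agent.H914.WeilCohomology Pool.Agent.W534

variable {k : Type u} [Field k] {𝒱 : VarClass k} {ops : CycleOps 𝒱}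
  {W : WeilCohomology.{u, v} ops} {p : ℕ}

lemma cases_codim {d i : ℕ} (hi : i ≤ d) : (∃ e, 2 * i + e = d) ∨
    ∃ j e, 2 * j + e = d ∧ i = e + j := by
  rcases Nat.lt_or_ge d (2 * i) with h | h
  · exact Or.inr ⟨d - i, 2 * i - d, by omega, by omega⟩
  · exact Or.inl ⟨d - 2 * i, by omega⟩

theorem parity (Φ : FrobSystem W p) (hp : 1 < p) (σ : W.K →+* ℂ) {X : 𝒱.Obj}
    (hRH : RiemannHyp Φ σ X) {D : X.Cycles} (hD : X.IsCyc 1 D) (hHL : HardLef W X D)
    {i : ℕ} (hi : i ≤ X.dim) {s : ℕ} (hs : 0 < s) (hDs : FixedBy Φ X D s) {r : ℕ} (hr : Odd r) :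
    ∃ a : ℕ, meromorphicOrderAt (zetaFn Φ σ X s) (i : ℂ) =
      ((-((finrank W.K (tatePow Φ X s i r) + 2 * a : ℕ) : ℤ) : ℤ) : WithTop ℤ) := by
  rw [order_zetaFn Φ hp σ hRH hs hi]
  have hle : finrank W.K (tatePow Φ X s i r) ≤ finrank W.K (genTate Φ X s i) :=
    Submodule.finrank_mono (tatePow_le Φ)
  have heven : Even (finrank W.K (genTate Φ X s i) - finrank W.K (tatePow Φ X s i r)) := by
    rcases cases_codim hi with ⟨e, he⟩ | ⟨j, e, he, rfl⟩
    · exact parity_low Φ hD hHL he hDs hr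
    · exact parity_high Φ hD hHL he hDs hr
  obtain ⟨a, ha⟩ := heven
  refine ⟨a, ?_⟩
  have : finrank W.K (genTate Φ X s i) = finrank W.K (tatePow Φ X s i r) + 2 * a := by omega
  rw [this]

/-- All sufficiently divisible fields. -/
lemma exists_large (Φ : FrobSystem W p) (X : 𝒱.Obj) {D : X.Cycles} (hD : X.IsCyc 1 D) (i l t : ℕ)
    (ht : 0 < t) : ∃ s, 0 < s ∧ t ∣ s ∧ FixedBy Φ X D s ∧
      (∀ c ∈ spanCycles W X i, frob Φ X s c = ((card Φ X s : W.K) ^ i) • c) ∧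
      (∀ c ∈ spanCycles W X l, frob Φ X s c = ((card Φ X s : W.K) ^ l) • c) ∧
      (∀ s', 0 < s' → genTate Φ X s' i ≤ genTate Φ X s i) ∧
      (∀ s', 0 < s' → genTate Φ X s' l ≤ genTate Φ X s l) := by
  obtain ⟨t1, ht1, h1⟩ := exists_span_eig Φ X i
  obtain ⟨t2, ht2, h2⟩ := exists_span_eig Φ X l
  obtain ⟨t3, ht3, h3⟩ := exists_stable Φ X i
  obtain ⟨t4, ht4, h4⟩ := exists_stable Φ X l
  obtain ⟨t5, ht5, h5⟩ := exists_span_eig Φ X 1
  have hDmem : W.cl X D ∈ spanCycles W X 1 := Pool.Agent.H447.mem_span_cl hD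
  refine ⟨t * t1 * t2 * t3 * t4 * t5, by positivity, ⟨t1 * t2 * t3 * t4 * t5, by ring⟩, ?_, ?_, ?_,
    ?_, ?_⟩
  · have := span_eig_mul' Φ (Z := X) (h5 _ hDmem) (t * t1 * t2 * t3 * t4)
    rw [pow_one] at this
    exact this
  · intro c hc
    have := span_eig_mul' Φ (Z := X) (h1 c hc) (t * t2 * t3 * t4 * t5)
    rwa [show t * t2 * t3 * t4 * t5 * t1 = t * t1 * t2 * t3 * t4 * t5 by ring] at this
  · intro c hc
    have := span_eig_mul' Φ (Z := X) (h2 c hc) (t * t1 * t3 * t4 * t5)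
    rwa [show t * t1 * t3 * t4 * t5 * t2 = t * t1 * t2 * t3 * t4 * t5 by ring] at this
  · intro s' hs'
    refine (h3 s' hs').trans ?_
    have := genTate_mono' Φ (Z := X) t3 (t * t1 * t2 * t4 * t5) i
    rwa [show t * t1 * t2 * t4 * t5 * t3 = t * t1 * t2 * t3 * t4 * t5 by ring] at this
  · intro s' hs'
    refine (h4 s' hs').trans ?_
    have := genTate_mono' Φ (Z := X) t4 (t * t1 * t2 * t3 * t5) l
    rwa [show t * t1 * t2 * t3 * t5 * t4 = t * t1 * t2 * t3 * t4 * t5 by ring] at this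

theorem gap (Φ : FrobSystem W p) (hp : 1 < p) (σ : W.K →+* ℂ) {X : 𝒱.Obj}
    (hRH : RiemannHyp Φ σ X) {D : X.Cycles} (hD : X.IsCyc 1 D) (hHL : HardLef W X D)
    {i : ℕ} (hi : i ≤ X.dim) {z : ℕ} (hz : Pool.Agent.Y163.PoleOrderIs Φ σ X i z)
    (hle : z ≤ numRank ops X i + 2) {s : ℕ} (hs : 0 < s) : SemisimpleAt Φ X s i := by
  obtain ⟨t, ht, hz⟩ := hz
  rcases cases_codim hi with ⟨e, he⟩ | ⟨j, e, he, rfl⟩
  · obtain ⟨s₀, hs₀, hts, hDs, h1, h2, h3, -⟩ := exists_large Φ X hD i (e + i) t ht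
    have hz' := hz s₀ hs₀ hts
    rw [order_zetaFn Φ hp σ hRH hs₀ hi] at hz'
    have hz'' : finrank W.K (genTate Φ X s₀ i) = z := by
      have := WithTop.coe_injective hz'
      omega
    have hun := unip_eq_one Φ hD hHL he hDs h1 h2 (by
      rw [hz'']
      rwa [numRank_eq (W := W) hi, show X.dim - i = e + i by omega] at hle)
    refine semisimpleAt_of Φ (s₀ := s₀) (fun x hx => ?_) h3 hs₀ hs
    have h0 := nilOp_eq_zero Φ hun
    have := nilOp_coe Φ (X := X) s₀ i ⟨x, hx⟩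
    rw [h0] at this
    exact this.symm
  · obtain ⟨s₀, hs₀, hts, hDs, h1, h2, -, h3⟩ := exists_large Φ X hD j (e + j) t ht
    have hz' := hz s₀ hs₀ hts
    rw [order_zetaFn Φ hp σ hRH hs₀ hi] at hz'
    have hz'' : finrank W.K (genTate Φ X s₀ (e + j)) = z := by
      have := WithTop.coe_injective hz'
      omega
    have hun := unip_eq_one Φ hD hHL he hDs h1 h2 (by
      rw [finrank_genTate_symm Φ (Z := X) (s := s₀) (j := j) (l := e + j) (by omega), hz'']
      rw [numRank_eq (W := W) hi, show X.dim - (e + j) = j by omega, kRank_symm] at hle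
      exact hle)
    refine semisimpleAt_of Φ (s₀ := s₀) (fun x hx => ?_) h3 hs₀ hs
    obtain ⟨y, hy⟩ := lefGen_surj Φ hD hHL he hDs ⟨x, hx⟩
    have hy' : W.cl X D ^ e * (y : W.H X) = x := congrArg Subtype.val hy
    have h0 := nilOp_eq_zero Φ hun
    have h4 := nilOp_coe Φ (X := X) s₀ j y
    rw [h0] at h4
    rw [← hy', frobSub_lef Φ hDs, ← h4]
    simp

end Pool.Agent.K7.H8.Gap
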